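import Pool.Agent.Q201.UnivCStar

/-!
# Back-and-forth equivalent groups have elementarily equivalent universal C*-algebras

The universal norm of an element `∑ c_w w(a)` of the group algebra depends only on the words `w`
with `w(a) = 1` (induced representations), so Duplicator's strategy for groups gives a strategy
for the algebras, played with elements of the group algebras, which are dense in all balls.
-/

set_option autoImplicit false

namespace Pool.Agent.Results.MP_a32272_lc.UniversalCStar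

open Q201.GroupCStar

universe u

section Definitions

/-- Duplicator has a winning strategy in the remaining `n` rounds of the game, when the tuples `a`
from `G` and `b` from `H` have been played so far. -/
def Duplicator {G H : Type u} [Group G] [Group H] : ℕ → {ι : Type} → (ι → G) → (ι → H) → Prop
  | 0, _, a, b => ∀ w, FreeGroup.lift a w = 1 ↔ FreeGroup.lift b w = 1
  | n + 1, _, a, b =>
    (∀ (l : ℕ) (c : Fin l → G), ∃ d : Fin l → H, Duplicator n (Sum.elim a c) (Sum.elim b d)) ∧
    (∀ (l : ℕ) (d : Fin l → H), ∃ c : Fin l → G, Duplicator n (Sum.elim a c) (Sum.elim b d))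

/-- The back-and-forth equivalence `≡ω` for games with tuples. -/
def BFEquiv (G H : Type u) [Group G] [Group H] : Prop :=
  ∀ n, Duplicator n (Empty.elim : Empty → G) (Empty.elim : Empty → H)

/-- A unitary representation of `G` on a Hilbert space `E`: a homomorphism to the group of linear
isometric automorphisms of `E`. -/
structure UnitaryRep (G : Type u) [Group G] where
  E : Type u
  [nacg : NormedAddCommGroup E]
  [ips : InnerProductSpace ℂ E]
  [compl : CompleteSpace E]
  act : G → E → E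
  act_one : ∀ ξ : E, act 1 ξ = ξ
  act_mul : ∀ (g h : G) (ξ : E), act (g * h) ξ = act g (act h ξ)
  act_add : ∀ (g : G) (ξ η : E), act g (ξ + η) = act g ξ + act g η
  act_smul : ∀ (g : G) (z : ℂ) (ξ : E), act g (z • ξ) = z • act g ξ
  act_norm : ∀ (g : G) (ξ : E), ‖act g ξ‖ = ‖ξ‖

attribute [instance] UnitaryRep.nacg UnitaryRep.ips UnitaryRep.compl

/-- The value of the group algebra element `f` in the unitary representation `ρ`, at the vector
`ξ`. -/
noncomputable def vecSum {G : Type u} [Group G] (ρ : UnitaryRep G) (f : G →₀ ℂ) (ξ : ρ.E) : ρ.E :=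
  f.sum fun g z => z • ρ.act g ξ

/-- The universal norm of a group algebra element: the supremum of the operator norms in all
unitary representations. -/
noncomputable def uNorm (G : Type u) [Group G] (f : G →₀ ℂ) : ℝ :=
  sSup {r | ∃ (ρ : UnitaryRep G) (ξ : ρ.E), ‖ξ‖ ≤ 1 ∧ r = ‖vecSum ρ f ξ‖}

/-- The image in `A` of the group algebra element `f`. -/
noncomputable def lin {G : Type u} [Group G] {A : Type u} [CStarAlgebra A] (v : G →* A)
    (f : G →₀ ℂ) : A := f.sum fun g z => z • v g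

/-- The C*-algebra `A`, with the homomorphism `v` from `G` to its unitary group, is the universal
group C*-algebra of `G`: the completion of the group algebra in the universal norm. -/
structure IsUniversal (G : Type u) [Group G] (A : Type u) [CStarAlgebra A] (v : G →* A) :
    Prop where
  mem_unitary : ∀ g, v g ∈ unitary A
  norm_eq : ∀ f : G →₀ ℂ, ‖lin v f‖ = uNorm G f
  dense : Dense (Set.range (lin v))

/-- Terms of the language of (unital) C*-algebras, with variables `x_0, ..., x_{k-1}`. -/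
inductive Tm (k : ℕ) : Type
  | var (i : Fin k) : Tm k
  | zero : Tm k
  | one : Tm k
  | add (s t : Tm k) : Tm k
  | mul (s t : Tm k) : Tm k
  | smul (z : ℂ) (t : Tm k) : Tm k
  | star (t : Tm k) : Tm k

/-- The value of a term. -/
noncomputable def Tm.val {A : Type u} [CStarAlgebra A] {k : ℕ} (x : Fin k → A) : Tm k → A
  | var i => x i
  | zero => 0
  | one => 1
  | add s t => s.val x + t.val x
  | mul s t => s.val x * t.val x
  | smul z t => z • t.val x
  | star t => Star.star (t.val x)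

/-- Formulas of continuous logic in the language of (unital) C*-algebras, with free variables
`x_0, ..., x_{k-1}`: norms of terms, continuous connectives, and suprema and infima over the balls
of integer radius. -/
inductive Fm : ℕ → Type
  | norm {k : ℕ} (t : Tm k) : Fm k
  | conn {k m : ℕ} (F : C(Fin m → ℝ, ℝ)) (φ : Fin m → Fm k) : Fm k
  | sup {k : ℕ} (r : ℕ) (φ : Fm (k + 1)) : Fm k
  | inf {k : ℕ} (r : ℕ) (φ : Fm (k + 1)) : Fm k

/-- The value of a formula. -/
noncomputable def Fm.val (A : Type u) [CStarAlgebra A] : {k : ℕ} → Fm k → (Fin k → A) → ℝ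
  | _, norm t, x => ‖t.val x‖
  | _, conn F φ, x => F fun i => (φ i).val A x
  | _, sup r φ, x => ⨆ y : {y : A // ‖y‖ ≤ r}, φ.val A (Fin.snoc x y.1)
  | _, inf r φ, x => ⨅ y : {y : A // ‖y‖ ≤ r}, φ.val A (Fin.snoc x y.1)

/-- Elementary equivalence of C*-algebras: every sentence has the same value in both. -/
def ElemEquiv (A B : Type u) [CStarAlgebra A] [CStarAlgebra B] : Prop :=
  ∀ φ : Fm 0, φ.val A Fin.elim0 = φ.val B Fin.elim0

end Definitions

/-- An auxiliary form of `IsUniversal`. -/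
structure IsUniversalCStar (G : Type u) [Group G] (A : Type u) [CStarAlgebra A]
    (v : G →* unitary A) : Prop where
  norm_eq : ∀ f : G →₀ ℂ, ‖f.sum fun g z => z • (v g : A)‖ = univNorm G f
  dense : Dense (Set.range fun f : G →₀ ℂ => f.sum fun g z => z • (v g : A))

/-- The homomorphism to the group of linear isometric automorphisms. -/
noncomputable def UnitaryRep.toHom {G : Type u} [Group G] (ρ : UnitaryRep G) :
    G →* (ρ.E ≃ₗᵢ[ℂ] ρ.E) where
  toFun g :=
    { toFun := ρ.act g
      map_add' := ρ.act_add g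
      map_smul' := ρ.act_smul g
      invFun := ρ.act g⁻¹
      left_inv := fun ξ => by rw [← ρ.act_mul, inv_mul_cancel, ρ.act_one]
      right_inv := fun ξ => by rw [← ρ.act_mul, mul_inv_cancel, ρ.act_one]
      norm_map' := ρ.act_norm g }
  map_one' := by
    ext1 ξ
    exact ρ.act_one ξ
  map_mul' g h := by
    ext1 ξ
    exact ρ.act_mul g h ξ

/-- The representation given by a homomorphism to the unitary group. -/
noncomputable def ofHom {G : Type u} [Group G] {E : Type u} [NormedAddCommGroup E] [InnerProductSpace ℂ E]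
    [CompleteSpace E] (π : G →* unitary (E →L[ℂ] E)) : UnitaryRep G where
  E := E
  act g ξ := (π g : E →L[ℂ] E) ξ
  act_one ξ := by rw [map_one]; rfl
  act_mul g h ξ := by rw [map_mul]; rfl
  act_add g ξ η := map_add _ _ _
  act_smul g z ξ := map_smul _ _ _
  act_norm g ξ := Unitary.norm_map (π g) ξ

theorem uNorm_eq {G : Type u} [Group G] (f : G →₀ ℂ) : uNorm G f = univNorm G f := by
  have hval : ∀ (ρ : UnitaryRep G) (ξ : ρ.E), vecSum ρ f ξ =
      (f.sum fun g z => z • (toU ρ.toHom g : ρ.E →L[ℂ] ρ.E)) ξ := by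
    intro ρ ξ
    unfold vecSum Finsupp.sum
    rw [sum_apply]
    rfl
  have hle : ∀ (ρ : UnitaryRep G) (ξ : ρ.E), ‖ξ‖ ≤ 1 → ‖vecSum ρ f ξ‖ ≤ univNorm G f := by
    intro ρ ξ hξ
    rw [hval]
    exact (ContinuousLinearMap.le_opNorm _ _).trans ((mul_le_of_le_one_right (norm_nonneg _)
      hξ).trans (le_univNorm f _))
  have hbdd : BddAbove {r | ∃ (ρ : UnitaryRep G) (ξ : ρ.E), ‖ξ‖ ≤ 1 ∧ r = ‖vecSum ρ f ξ‖} := by
    refine ⟨univNorm G f, ?_⟩
    rintro _ ⟨ρ, ξ, hξ, rfl⟩
    exact hle ρ ξ hξ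
  apply le_antisymm
  · refine csSup_le ⟨_, ofHom (E := EuclideanSpace ℂ PUnit.{u + 1}) 1, 0,
      norm_zero.le.trans zero_le_one, rfl⟩ ?_
    rintro _ ⟨ρ, ξ, hξ, rfl⟩
    exact hle ρ ξ hξ
  · refine csSup_le (repNorms_nonempty f) ?_
    rintro _ ⟨E, _, _, _, π, rfl⟩
    have h0 : 0 ≤ uNorm G f := Real.sSup_nonneg (by
      rintro _ ⟨ρ, ξ, _, rfl⟩
      exact norm_nonneg _)
    refine ContinuousLinearMap.opNorm_le_bound _ h0 fun ξ => ?_
    have hval' : ∀ ξ : E, vecSum (ofHom π) f ξ =
        (f.sum fun g z => z • (π g : E →L[ℂ] E)) ξ := by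
      intro ξ
      unfold vecSum Finsupp.sum
      rw [sum_apply]
      rfl
    by_cases hξ : ξ = 0
    · rw [hξ, map_zero, norm_zero]
      exact (mul_zero _).ge
    · have hn : 0 < ‖ξ‖ := norm_pos_iff.mpr hξ
      have h1 : ‖vecSum (ofHom π) f ((‖ξ‖⁻¹ : ℂ) • ξ : E)‖ ≤ uNorm G f := by
        refine le_csSup hbdd ⟨ofHom π, ((‖ξ‖⁻¹ : ℂ) • ξ : E), ?_, rfl⟩
        change ‖((‖ξ‖⁻¹ : ℂ) • ξ : E)‖ ≤ 1
        rw [norm_smul, norm_inv, Complex.norm_real, norm_norm, inv_mul_cancel₀ hn.ne']
      rw [hval', map_smul] at h1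
      change ‖(‖ξ‖⁻¹ : ℂ) • ((f.sum fun g z => z • (π g : E →L[ℂ] E)) ξ)‖ ≤ _ at h1
      rw [norm_smul, norm_inv, Complex.norm_real, norm_norm, inv_mul_le_iff₀ hn] at h1
      rw [mul_comm]
      exact h1

theorem IsUniversal.aux {G : Type u} [Group G] {A : Type u} [CStarAlgebra A] {v : G →* A}
    (h : IsUniversal G A v) : IsUniversalCStar G A (v.codRestrict (unitary A) h.mem_unitary) :=
  ⟨fun f => (h.norm_eq f).trans (uNorm_eq f), h.dense⟩

section Continuity

variable {A : Type u} [CStarAlgebra A]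

/-- The set of tuples with entries of norm at most `R`. -/
def Ball (A : Type u) [CStarAlgebra A] (k : ℕ) (R : ℝ) : Set (Fin k → A) := {x | ∀ i, ‖x i‖ ≤ R}

theorem tm_lip {k : ℕ} (t : Tm k) (R : ℝ) : ∃ C L : ℝ, 0 ≤ C ∧ 0 ≤ L ∧
    (∀ x ∈ Ball A k R, ‖t.val x‖ ≤ C) ∧
    ∀ x ∈ Ball A k R, ∀ y ∈ Ball A k R, ‖t.val x - t.val y‖ ≤ L * dist x y := by
  induction t with
  | var i =>
    refine ⟨|R|, 1, abs_nonneg _, zero_le_one, fun x hx => (hx i).trans (le_abs_self R),
      fun x _ y _ => ?_⟩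
    rw [one_mul, ← dist_eq_norm]
    exact dist_le_pi_dist x y i
  | zero => exact ⟨0, 0, le_rfl, le_rfl, fun x _ => by simp [Tm.val],
      fun x _ y _ => by simp [Tm.val]⟩
  | one => exact ⟨‖(1 : A)‖, 0, norm_nonneg _, le_rfl, fun x _ => by simp [Tm.val],
      fun x _ y _ => by simp [Tm.val]⟩
  | add s t hs ht =>
    obtain ⟨C, L, hC, hL, h1, h2⟩ := hs
    obtain ⟨C', L', hC', hL', h1', h2'⟩ := ht
    refine ⟨C + C', L + L', by positivity, by positivity, fun x hx => ?_, fun x hx y hy => ?_⟩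
    · exact (norm_add_le _ _).trans (add_le_add (h1 x hx) (h1' x hx))
    · have : (s.add t).val x - (s.add t).val y = (s.val x - s.val y) + (t.val x - t.val y) := by
        simp only [Tm.val]; abel
      rw [this, add_mul]
      exact (norm_add_le _ _).trans (add_le_add (h2 x hx y hy) (h2' x hx y hy))
  | mul s t hs ht =>
    obtain ⟨C, L, hC, hL, h1, h2⟩ := hs
    obtain ⟨C', L', hC', hL', h1', h2'⟩ := ht
    refine ⟨C * C', C * L' + L * C', by positivity, by positivity, fun x hx => ?_,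
      fun x hx y hy => ?_⟩
    · exact (norm_mul_le _ _).trans (mul_le_mul (h1 x hx) (h1' x hx) (norm_nonneg _) hC)
    · have : (s.mul t).val x - (s.mul t).val y = s.val x * (t.val x - t.val y) +
          (s.val x - s.val y) * t.val y := by
        simp only [Tm.val, mul_sub, sub_mul]; abel
      rw [this]
      have e1 : ‖s.val x * (t.val x - t.val y)‖ ≤ C * (L' * dist x y) :=
        (norm_mul_le _ _).trans (mul_le_mul (h1 x hx) (h2' x hx y hy) (norm_nonneg _) hC)
      have e2 : ‖(s.val x - s.val y) * t.val y‖ ≤ (L * dist x y) * C' :=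
        (norm_mul_le _ _).trans (mul_le_mul (h2 x hx y hy) (h1' y hy) (norm_nonneg _)
          (by positivity))
      calc _ ≤ _ := norm_add_le _ _
        _ ≤ C * (L' * dist x y) + (L * dist x y) * C' := add_le_add e1 e2
        _ = _ := by ring
  | smul z t ht =>
    obtain ⟨C, L, hC, hL, h1, h2⟩ := ht
    refine ⟨‖z‖ * C, ‖z‖ * L, by positivity, by positivity, fun x hx => ?_, fun x hx y hy => ?_⟩
    · simp only [Tm.val, norm_smul]
      exact mul_le_mul_of_nonneg_left (h1 x hx) (norm_nonneg _)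
    · simp only [Tm.val]
      rw [← smul_sub, norm_smul, mul_assoc]
      exact mul_le_mul_of_nonneg_left (h2 x hx y hy) (norm_nonneg _)
  | star t ht =>
    obtain ⟨C, L, hC, hL, h1, h2⟩ := ht
    refine ⟨C, L, hC, hL, fun x hx => ?_, fun x hx y hy => ?_⟩
    · simp only [Tm.val, norm_star]
      exact h1 x hx
    · simp only [Tm.val]
      rw [← star_sub, norm_star]
      exact h2 x hx y hy

theorem sup_close {Y : Type*} [Nonempty Y] {f g : Y → ℝ} (hf : BddAbove (Set.range f))
    (hg : BddAbove (Set.range g)) {ε : ℝ} (h : ∀ y, |f y - g y| ≤ ε) :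
    |(⨆ y, f y) - ⨆ y, g y| ≤ ε := by
  rw [abs_le]
  constructor
  · have : (⨆ y, g y) ≤ (⨆ y, f y) + ε := ciSup_le fun y => by
      have h1 := (abs_le.mp (h y)).1
      have h2 := le_ciSup hf y
      linarith
    linarith
  · have : (⨆ y, f y) ≤ (⨆ y, g y) + ε := ciSup_le fun y => by
      have h1 := (abs_le.mp (h y)).2
      have h2 := le_ciSup hg y
      linarith
    linarith

theorem inf_close {Y : Type*} [Nonempty Y] {f g : Y → ℝ} (hf : BddBelow (Set.range f))
    (hg : BddBelow (Set.range g)) {ε : ℝ} (h : ∀ y, |f y - g y| ≤ ε) :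
    |(⨅ y, f y) - ⨅ y, g y| ≤ ε := by
  rw [abs_le]
  constructor
  · have : (⨅ y, g y) - ε ≤ ⨅ y, f y := le_ciInf fun y => by
      have h1 := (abs_le.mp (h y)).1
      have h2 := ciInf_le hg y
      linarith
    linarith
  · have : (⨅ y, f y) - ε ≤ ⨅ y, g y := le_ciInf fun y => by
      have h1 := (abs_le.mp (h y)).2
      have h2 := ciInf_le hf y
      linarith
    linarith

instance (r : ℕ) : Nonempty {y : A // ‖y‖ ≤ r} := ⟨⟨0, by simp⟩⟩

theorem snoc_mem {k : ℕ} {R : ℝ} {r : ℕ} {x : Fin k → A} (hx : x ∈ Ball A k R)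
    (y : {y : A // ‖y‖ ≤ r}) : (Fin.snoc x y.1 : Fin (k + 1) → A) ∈ Ball A (k + 1) (max R r) := by
  intro i
  induction i using Fin.lastCases with
  | last => rw [Fin.snoc_last]; exact y.2.trans (le_max_right _ _)
  | cast i => rw [Fin.snoc_castSucc]; exact (hx i).trans (le_max_left _ _)

theorem snoc_dist {k : ℕ} (x x' : Fin k → A) (y : A) :
    dist (Fin.snoc x y : Fin (k + 1) → A) (Fin.snoc x' y) ≤ dist x x' := by
  rw [dist_pi_le_iff dist_nonneg]
  intro i
  induction i using Fin.lastCases with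
  | last => rw [Fin.snoc_last, Fin.snoc_last, dist_self]; exact dist_nonneg
  | cast i => rw [Fin.snoc_castSucc, Fin.snoc_castSucc]; exact dist_le_pi_dist x x' i

theorem fm_uc {k : ℕ} (φ : Fm k) (R : ℝ) : (∃ C : ℝ, ∀ x ∈ Ball A k R, |φ.val A x| ≤ C) ∧
    UniformContinuous (fun x : Ball A k R => φ.val A x.1) := by
  induction φ generalizing R with
  | norm t =>
    obtain ⟨C, L, hC, hL, h1, h2⟩ := tm_lip (A := A) t R
    refine ⟨⟨C, fun x hx => ?_⟩, ?_⟩
    · simp only [Fm.val, abs_norm]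
      exact h1 x hx
    · rw [Metric.uniformContinuous_iff]
      intro ε hε
      refine ⟨ε / (L + 1), by positivity, fun {a b} hab => ?_⟩
      have h3 : |‖t.val a.1‖ - ‖t.val b.1‖| ≤ L * dist a.1 b.1 :=
        (abs_norm_sub_norm_le _ _).trans (h2 a.1 a.2 b.1 b.2)
      have h4 : dist a.1 b.1 < ε / (L + 1) := hab
      rw [lt_div_iff₀ (by positivity)] at h4
      change |‖t.val a.1‖ - ‖t.val b.1‖| < ε
      have : 0 ≤ dist a.1 b.1 := dist_nonneg
      nlinarith
  | conn F φ ih =>
    rename_i k m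
    choose C hC using fun i => (ih i R).1
    have hK : IsCompact (Set.pi Set.univ fun i : Fin m => Set.Icc (-(C i)) (C i)) :=
      isCompact_univ_pi fun i => isCompact_Icc
    have hFK := hK.uniformContinuousOn_of_continuous F.continuous.continuousOn
    have hmem : ∀ x : Ball A k R, (fun i => (φ i).val A x.1) ∈
        Set.pi Set.univ fun i : Fin m => Set.Icc (-(C i)) (C i) := fun x i _ =>
      abs_le.mp (hC i x.1 x.2)
    refine ⟨?_, ?_⟩
    · obtain ⟨D, hD⟩ := (hK.image F.continuous).isBounded.exists_norm_le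
      exact ⟨D, fun x hx => hD _ ⟨_, hmem ⟨x, hx⟩, rfl⟩⟩
    · have h1 : UniformContinuous (fun x : Ball A k R => fun i => (φ i).val A x.1) :=
        uniformContinuous_pi.mpr fun i => (ih i R).2
      rw [uniformContinuousOn_iff_restrict] at hFK
      exact hFK.comp (h1.subtype_mk hmem)
  | sup r φ ih =>
    rename_i k
    obtain ⟨⟨C, hC⟩, hu⟩ := ih (max R r)
    have hbd : ∀ x ∈ Ball A k R, BddAbove (Set.range fun y : {y : A // ‖y‖ ≤ r} =>
        φ.val A (Fin.snoc x y.1)) := by
      intro x hx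
      refine ⟨C, ?_⟩
      rintro _ ⟨y, rfl⟩
      exact (abs_le.mp (hC _ (snoc_mem hx y))).2
    refine ⟨⟨C, fun x hx => ?_⟩, ?_⟩
    · simp only [Fm.val]
      rw [abs_le]
      constructor
      · have y0 : {y : A // ‖y‖ ≤ r} := ⟨0, by simp⟩
        exact (abs_le.mp (hC _ (snoc_mem hx y0))).1.trans (le_ciSup (hbd x hx) y0)
      · exact ciSup_le fun y => (abs_le.mp (hC _ (snoc_mem hx y))).2
    · rw [Metric.uniformContinuous_iff] at hu ⊢
      intro ε hε
      obtain ⟨δ, hδ, h⟩ := hu (ε / 2) (by positivity)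
      refine ⟨δ, hδ, fun {a b} hab => ?_⟩
      have h1 : |(Fm.sup r φ).val A a.1 - (Fm.sup r φ).val A b.1| ≤ ε / 2 := by
        refine sup_close (hbd _ a.2) (hbd _ b.2) fun y => ?_
        exact (h (a := ⟨_, snoc_mem a.2 y⟩) (b := ⟨_, snoc_mem b.2 y⟩)
          (lt_of_le_of_lt (snoc_dist a.1 b.1 y.1) hab)).le
      exact lt_of_le_of_lt h1 (by linarith)
  | inf r φ ih =>
    rename_i k
    obtain ⟨⟨C, hC⟩, hu⟩ := ih (max R r)
    have hbd : ∀ x ∈ Ball A k R, BddBelow (Set.range fun y : {y : A // ‖y‖ ≤ r} =>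
        φ.val A (Fin.snoc x y.1)) := by
      intro x hx
      refine ⟨-C, ?_⟩
      rintro _ ⟨y, rfl⟩
      exact (abs_le.mp (hC _ (snoc_mem hx y))).1
    refine ⟨⟨C, fun x hx => ?_⟩, ?_⟩
    · simp only [Fm.val]
      rw [abs_le]
      constructor
      · exact le_ciInf fun y => (abs_le.mp (hC _ (snoc_mem hx y))).1
      · have y0 : {y : A // ‖y‖ ≤ r} := ⟨0, by simp⟩
        exact (ciInf_le (hbd x hx) y0).trans (abs_le.mp (hC _ (snoc_mem hx y0))).2
    · rw [Metric.uniformContinuous_iff] at hu ⊢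
      intro ε hε
      obtain ⟨δ, hδ, h⟩ := hu (ε / 2) (by positivity)
      refine ⟨δ, hδ, fun {a b} hab => ?_⟩
      have h1 : |(Fm.inf r φ).val A a.1 - (Fm.inf r φ).val A b.1| ≤ ε / 2 := by
        refine inf_close (hbd _ a.2) (hbd _ b.2) fun y => ?_
        exact (h (a := ⟨_, snoc_mem a.2 y⟩) (b := ⟨_, snoc_mem b.2 y⟩)
          (lt_of_le_of_lt (snoc_dist a.1 b.1 y.1) hab)).le
      exact lt_of_le_of_lt h1 (by linarith)

end Continuity

section Eval

variable {G : Type u} [Group G] {A : Type u} [CStarAlgebra A]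

/-- Evaluation of an element of the group algebra of a free group at a tuple of group elements. -/
noncomputable def ev (v : G →* unitary A) {ι : Type} (a : ι → G) (c : FreeGroup ι →₀ ℂ) : A :=
  c.sum fun w z => z • (v (FreeGroup.lift a w) : A)

theorem ev_zero (v : G →* unitary A) {ι : Type} (a : ι → G) : ev v a 0 = 0 := by
  simp [ev]

theorem ev_add (v : G →* unitary A) {ι : Type} (a : ι → G) (c c' : FreeGroup ι →₀ ℂ) :
    ev v a (c + c') = ev v a c + ev v a c' := by
  classical
  unfold ev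
  rw [Finsupp.sum_add_index' (by simp) (by intro x y z; rw [add_smul])]

theorem ev_single (v : G →* unitary A) {ι : Type} (a : ι → G) (w : FreeGroup ι) (z : ℂ) :
    ev v a (Finsupp.single w z) = z • (v (FreeGroup.lift a w) : A) := by
  unfold ev
  rw [Finsupp.sum_single_index (by simp)]

theorem ev_smul (v : G →* unitary A) {ι : Type} (a : ι → G) (c : FreeGroup ι →₀ ℂ) (z : ℂ) :
    ev v a (z • c) = z • ev v a c := by
  unfold ev
  rw [Finsupp.sum_smul_index (by simp), Finsupp.smul_sum]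
  simp only [mul_smul]

theorem ev_mapDomain (v : G →* unitary A) {ι κ : Type} (a : ι → G) (τ : κ → ι)
    (c : FreeGroup κ →₀ ℂ) :
    ev v a (c.mapDomain (FreeGroup.map τ)) = ev v (a ∘ τ) c := by
  unfold ev
  rw [Finsupp.sum_mapDomain_index (by simp) (by intro x y z; rw [add_smul])]
  refine Finsupp.sum_congr fun w _ => ?_
  have : FreeGroup.lift a (FreeGroup.map τ w) = FreeGroup.lift (a ∘ τ) w := by
    have h : (FreeGroup.lift a).comp (FreeGroup.map τ) = FreeGroup.lift (a ∘ τ) := by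
      ext x
      simp
    exact DFunLike.congr_fun h w
  rw [this]

end Eval

section Main

variable {G H : Type u} [Group G] [Group H] {A B : Type u} [CStarAlgebra A] [CStarAlgebra B]
  {v : G →* unitary A} {v' : H →* unitary B}

theorem ev_mul {ι : Type} (a : ι → G) (b : ι → H) (c c' : FreeGroup ι →₀ ℂ) :
    ∃ d : FreeGroup ι →₀ ℂ, ev v a c * ev v a c' = ev v a d ∧
      ev v' b c * ev v' b c' = ev v' b d := by
  classical
  induction c using Finsupp.induction_linear with
  | zero => exact ⟨0, by simp [ev_zero], by simp [ev_zero]⟩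
  | add c₁ c₂ h₁ h₂ =>
    obtain ⟨d₁, h₁, h₁'⟩ := h₁
    obtain ⟨d₂, h₂, h₂'⟩ := h₂
    exact ⟨d₁ + d₂, by rw [ev_add, ev_add, add_mul, h₁, h₂],
      by rw [ev_add, ev_add, add_mul, h₁', h₂']⟩
  | single w z =>
    induction c' using Finsupp.induction_linear with
    | zero => exact ⟨0, by simp [ev_zero], by simp [ev_zero]⟩
    | add c₁ c₂ h₁ h₂ =>
      obtain ⟨d₁, h₁, h₁'⟩ := h₁
      obtain ⟨d₂, h₂, h₂'⟩ := h₂
      exact ⟨d₁ + d₂, by rw [ev_add, ev_add, mul_add, h₁, h₂],
        by rw [ev_add, ev_add, mul_add, h₁', h₂']⟩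
    | single w' z' =>
      refine ⟨Finsupp.single (w * w') (z * z'), ?_, ?_⟩
      · rw [ev_single, ev_single, ev_single, map_mul, map_mul, Submonoid.coe_mul,
          smul_mul_smul_comm]
      · rw [ev_single, ev_single, ev_single, map_mul, map_mul, Submonoid.coe_mul,
          smul_mul_smul_comm]

theorem ev_star {ι : Type} (a : ι → G) (b : ι → H) (c : FreeGroup ι →₀ ℂ) :
    ∃ d : FreeGroup ι →₀ ℂ, star (ev v a c) = ev v a d ∧ star (ev v' b c) = ev v' b d := by
  classical
  induction c using Finsupp.induction_linear with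
  | zero => exact ⟨0, by simp [ev_zero], by simp [ev_zero]⟩
  | add c₁ c₂ h₁ h₂ =>
    obtain ⟨d₁, h₁, h₁'⟩ := h₁
    obtain ⟨d₂, h₂, h₂'⟩ := h₂
    exact ⟨d₁ + d₂, by rw [ev_add, ev_add, star_add, h₁, h₂],
      by rw [ev_add, ev_add, star_add, h₁', h₂']⟩
  | single w z =>
    refine ⟨Finsupp.single w⁻¹ (star z), ?_, ?_⟩
    · rw [ev_single, ev_single, star_smul, map_inv, map_inv, ← Unitary.star_eq_inv,
        Unitary.coe_star]
    · rw [ev_single, ev_single, star_smul, map_inv, map_inv, ← Unitary.star_eq_inv,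
        Unitary.coe_star]

/-- Terms evaluate to elements of the group algebra, in the same way in both algebras. -/
theorem tm_ev {k : ℕ} (t : Tm k) {ι : Type} (a : ι → G) (b : ι → H)
    (c : Fin k → (FreeGroup ι →₀ ℂ)) :
    ∃ d : FreeGroup ι →₀ ℂ, t.val (fun i => ev v a (c i)) = ev v a d ∧
      t.val (fun i => ev v' b (c i)) = ev v' b d := by
  induction t with
  | var i => exact ⟨c i, rfl, rfl⟩
  | zero => exact ⟨0, by simp [ev_zero, Tm.val], by simp [ev_zero, Tm.val]⟩
  | one => exact ⟨Finsupp.single 1 1, by simp [ev_single, Tm.val], by simp [ev_single, Tm.val]⟩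
  | add s t hs ht =>
    obtain ⟨d, h, h'⟩ := hs
    obtain ⟨e, k, k'⟩ := ht
    exact ⟨d + e, by rw [ev_add, ← h, ← k]; rfl, by rw [ev_add, ← h', ← k']; rfl⟩
  | mul s t hs ht =>
    obtain ⟨d, h, h'⟩ := hs
    obtain ⟨e, k, k'⟩ := ht
    obtain ⟨f, l, l'⟩ := ev_mul (v := v) (v' := v') a b d e
    exact ⟨f, by rw [← l, ← h, ← k]; rfl, by rw [← l', ← h', ← k']; rfl⟩
  | smul z t ht =>
    obtain ⟨e, k, k'⟩ := ht
    exact ⟨z • e, by rw [ev_smul, ← k]; rfl, by rw [ev_smul, ← k']; rfl⟩
  | star t ht =>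
    obtain ⟨e, k, k'⟩ := ht
    obtain ⟨f, l, l'⟩ := ev_star (v := v) (v' := v') a b e
    exact ⟨f, by rw [← l, ← k]; rfl, by rw [← l', ← k']; rfl⟩

/-- Norms of elements of the group algebra depend only on the marked subgroup. -/
theorem norm_ev (hA : IsUniversalCStar G A v) (hB : IsUniversalCStar H B v') {ι : Type}
    {a : ι → G} {b : ι → H}
    (hab : ∀ w : FreeGroup ι, FreeGroup.lift a w = 1 ↔ FreeGroup.lift b w = 1)
    (c : FreeGroup ι →₀ ℂ) : ‖ev v a c‖ = ‖ev v' b c‖ := by
  have h1 := hA.norm_eq (c.mapDomain (FreeGroup.lift a))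
  have h2 := hB.norm_eq (c.mapDomain (FreeGroup.lift b))
  rw [Finsupp.sum_mapDomain_index (by simp) (by intro x y z; rw [add_smul])] at h1 h2
  unfold ev
  rw [h1, h2, univNorm_eq a b hab]

/-- A winning position is winning for `0` rounds. -/
theorem Duplicator.base {n : ℕ} {ι : Type} {a : ι → G} {b : ι → H} (h : Duplicator n a b) :
    ∀ w : FreeGroup ι, FreeGroup.lift a w = 1 ↔ FreeGroup.lift b w = 1 := by
  induction n generalizing ι with
  | zero => exact h
  | succ n ih =>
    obtain ⟨d, hd⟩ := h.1 0 Fin.elim0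
    have h1 := ih hd
    intro w
    have h2 := h1 (FreeGroup.map Sum.inl w)
    have e1 : ∀ {K : Type u} [Group K] (a : ι → K) (d : Fin 0 → K),
        FreeGroup.lift (Sum.elim a d) (FreeGroup.map Sum.inl w) = FreeGroup.lift a w := by
      intro K _ a d
      have h : (FreeGroup.lift (Sum.elim a d)).comp (FreeGroup.map Sum.inl) =
          FreeGroup.lift a := by
        ext x
        simp
      exact DFunLike.congr_fun h w
    rwa [e1, e1] at h2

theorem Duplicator.symm {n : ℕ} {ι : Type} {a : ι → G} {b : ι → H} (h : Duplicator n a b) :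
    Duplicator n b a := by
  induction n generalizing ι with
  | zero => exact fun w => (h w).symm
  | succ n ih =>
    refine ⟨fun l d => ?_, fun l c => ?_⟩
    · obtain ⟨c, hc⟩ := h.2 l d
      exact ⟨c, ih hc⟩
    · obtain ⟨d, hd⟩ := h.1 l c
      exact ⟨d, ih hd⟩

/-- Elements of a ball are approximated by elements of the group algebra in the same ball. -/
theorem exists_approx (hA : IsUniversalCStar G A v) (r : ℕ) (y : A) (hy : ‖y‖ ≤ r) {δ : ℝ}
    (hδ : 0 < δ) : ∃ (l : ℕ) (c : Fin l → G) (d : FreeGroup (Fin l) →₀ ℂ),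
      ‖ev v c d‖ ≤ r ∧ ‖y - ev v c d‖ < δ := by
  classical
  obtain ⟨z, ⟨f, rfl⟩, hf⟩ := Metric.mem_closure_iff.mp (hA.dense y) (δ / 2) (by positivity)
  set z := f.sum fun g z => z • (v g : A) with hz
  have hzr : ‖z‖ ≤ r + δ / 2 := by
    have h1 : ‖z‖ ≤ ‖y‖ + ‖y - z‖ := by
      have : z = y - (y - z) := by abel
      conv_lhs => rw [this]
      exact norm_sub_le _ _
    rw [dist_eq_norm] at hf
    linarith
  set e := f.support.equivFin with he
  set c : Fin f.support.card → G := fun i => (e.symm i : G) with hc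
  set q : ℝ := r / (r + δ / 2) with hq
  have hq0 : 0 ≤ q := by positivity
  have hq1 : 1 - q = (δ / 2) / (r + δ / 2) := by
    rw [hq]
    have : (r : ℝ) + δ / 2 ≠ 0 := by positivity
    field_simp
    ring
  refine ⟨_, c, (q : ℂ) • ∑ i, Finsupp.single (FreeGroup.of i) (f (c i)), ?_⟩
  have hev : ev v c ((q : ℂ) • ∑ i, Finsupp.single (FreeGroup.of i) (f (c i))) = (q : ℂ) • z := by
    rw [ev_smul]
    congr 1
    have h1 : ∀ s : Finset (Fin f.support.card),
        ev v c (∑ i ∈ s, Finsupp.single (FreeGroup.of i) (f (c i))) =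
          ∑ i ∈ s, f (c i) • (v (c i) : A) := by
      intro s
      induction s using Finset.induction_on with
      | empty => simp [ev_zero]
      | insert i s hi ih =>
        rw [Finset.sum_insert hi, Finset.sum_insert hi, ev_add, ih, ev_single,
          FreeGroup.lift_apply_of]
    rw [h1, hz, Finsupp.sum, ← Finset.sum_coe_sort f.support]
    exact Fintype.sum_equiv e.symm _ _ fun i => rfl
  rw [hev]
  have hnq : ‖(q : ℂ)‖ = q := by rw [Complex.norm_real, Real.norm_of_nonneg hq0]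
  constructor
  · rw [norm_smul, hnq, hq, div_mul_eq_mul_div, div_le_iff₀ (by positivity)]
    exact mul_le_mul_of_nonneg_left hzr (by positivity)
  · have h2 : y - (q : ℂ) • z = (y - z) + ((1 - q : ℝ) : ℂ) • z := by
      push_cast
      rw [sub_smul, one_smul]
      abel
    rw [h2]
    have h3 : ‖((1 - q : ℝ) : ℂ) • z‖ ≤ δ / 2 := by
      rw [norm_smul, Complex.norm_real, hq1, Real.norm_of_nonneg (by positivity),
        div_mul_eq_mul_div, div_le_iff₀ (by positivity)]
      exact mul_le_mul_of_nonneg_left hzr (by positivity)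
    rw [dist_eq_norm] at hf
    calc _ ≤ _ := norm_add_le _ _
      _ < δ := by linarith

theorem exists_bound {k : ℕ} (x : Fin k → A) : ∃ R : ℝ, x ∈ Ball A k R := by
  refine ⟨∑ i, ‖x i‖, fun i => ?_⟩
  exact Finset.single_le_sum (f := fun i => ‖x i‖) (fun i _ => norm_nonneg _) (Finset.mem_univ i)

/-- The back-and-forth step. -/
theorem step (hA : IsUniversalCStar G A v) (hB : IsUniversalCStar H B v') {k : ℕ}
    (φ : Fm (k + 1)) {n : ℕ}
    (ih : ∀ {ι : Type} (a : ι → G) (b : ι → H), Duplicator n a b →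
      ∀ c : Fin (k + 1) → (FreeGroup ι →₀ ℂ),
        φ.val A (fun i => ev v a (c i)) = φ.val B (fun i => ev v' b (c i)))
    {ι : Type} {a : ι → G} {b : ι → H} (hab : Duplicator (n + 1) a b)
    (c : Fin k → (FreeGroup ι →₀ ℂ)) (r : ℕ) (y : {y : A // ‖y‖ ≤ r}) {ε : ℝ} (hε : 0 < ε) :
    ∃ y' : {y : B // ‖y‖ ≤ r},
      |φ.val A (Fin.snoc (fun i => ev v a (c i)) y.1) -
        φ.val B (Fin.snoc (fun i => ev v' b (c i)) y'.1)| ≤ ε := by
  obtain ⟨R, hR⟩ := exists_bound (fun i => ev v a (c i))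
  obtain ⟨δ, hδ, h⟩ := Metric.uniformContinuous_iff.mp (fm_uc (A := A) φ (max R r)).2 ε hε
  obtain ⟨l, g, d, hd, hyd⟩ := exists_approx hA r y.1 y.2 hδ
  obtain ⟨g', hg'⟩ := hab.1 l g
  set C : Fin (k + 1) → (FreeGroup (ι ⊕ Fin l) →₀ ℂ) :=
    Fin.snoc (fun i => (c i).mapDomain (FreeGroup.map Sum.inl))
      (d.mapDomain (FreeGroup.map Sum.inr)) with hC
  have e1 : (fun i => ev v (Sum.elim a g) (C i)) =
      (Fin.snoc (fun i => ev v a (c i)) (ev v g d) : Fin (k + 1) → A) := by
    funext i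
    induction i using Fin.lastCases with
    | last => rw [hC, Fin.snoc_last, Fin.snoc_last, ev_mapDomain, Sum.elim_comp_inr]
    | cast i => rw [hC, Fin.snoc_castSucc, Fin.snoc_castSucc, ev_mapDomain, Sum.elim_comp_inl]
  have e2 : (fun i => ev v' (Sum.elim b g') (C i)) =
      (Fin.snoc (fun i => ev v' b (c i)) (ev v' g' d) : Fin (k + 1) → B) := by
    funext i
    induction i using Fin.lastCases with
    | last => rw [hC, Fin.snoc_last, Fin.snoc_last, ev_mapDomain, Sum.elim_comp_inr]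
    | cast i => rw [hC, Fin.snoc_castSucc, Fin.snoc_castSucc, ev_mapDomain, Sum.elim_comp_inl]
  have h1 := ih _ _ hg' C
  rw [e1, e2] at h1
  have h2 : ‖ev v' g' d‖ ≤ r := by
    have h3 := norm_ev hA hB hg'.base (d.mapDomain (FreeGroup.map Sum.inr))
    rw [ev_mapDomain, ev_mapDomain, Sum.elim_comp_inr, Sum.elim_comp_inr] at h3
    rw [← h3]
    exact hd
  refine ⟨⟨ev v' g' d, h2⟩, ?_⟩
  rw [← h1]
  refine (h (a := ⟨_, snoc_mem hR y⟩) (b := ⟨_, snoc_mem hR ⟨ev v g d, hd⟩⟩) ?_).le
  change dist (Fin.snoc (fun i => ev v a (c i)) y.1 : Fin (k + 1) → A)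
    (Fin.snoc (fun i => ev v a (c i)) (ev v g d)) < δ
  rw [dist_pi_lt_iff hδ]
  intro i
  induction i using Fin.lastCases with
  | last => rw [Fin.snoc_last, Fin.snoc_last, dist_eq_norm]; exact hyd
  | cast i => rw [Fin.snoc_castSucc, Fin.snoc_castSucc, dist_self]; exact hδ

theorem sup_eq {X Y : Type*} [Nonempty X] [Nonempty Y] {f : X → ℝ} {g : Y → ℝ}
    (hf : BddAbove (Set.range f)) (hg : BddAbove (Set.range g))
    (h1 : ∀ x, ∀ ε > 0, ∃ y, |f x - g y| ≤ ε) (h2 : ∀ y, ∀ ε > 0, ∃ x, |g y - f x| ≤ ε) :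
    (⨆ x, f x) = ⨆ y, g y := by
  apply le_antisymm
  · refine ciSup_le fun x => le_of_forall_pos_le_add fun ε hε => ?_
    obtain ⟨y, hy⟩ := h1 x ε hε
    have := le_ciSup hg y
    have := (abs_le.mp hy).2
    linarith
  · refine ciSup_le fun y => le_of_forall_pos_le_add fun ε hε => ?_
    obtain ⟨x, hx⟩ := h2 y ε hε
    have := le_ciSup hf x
    have := (abs_le.mp hx).2
    linarith

theorem inf_eq {X Y : Type*} [Nonempty X] [Nonempty Y] {f : X → ℝ} {g : Y → ℝ}
    (hf : BddBelow (Set.range f)) (hg : BddBelow (Set.range g))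
    (h1 : ∀ x, ∀ ε > 0, ∃ y, |f x - g y| ≤ ε) (h2 : ∀ y, ∀ ε > 0, ∃ x, |g y - f x| ≤ ε) :
    (⨅ x, f x) = ⨅ y, g y := by
  apply le_antisymm
  · refine le_ciInf fun y => le_of_forall_pos_le_add fun ε hε => ?_
    obtain ⟨x, hx⟩ := h2 y ε hε
    have := ciInf_le hf x
    have := (abs_le.mp hx).1
    linarith
  · refine le_ciInf fun x => le_of_forall_pos_le_add fun ε hε => ?_
    obtain ⟨y, hy⟩ := h1 x ε hε
    have := ciInf_le hg y
    have := (abs_le.mp hy).1
    linarith

theorem fm_bdd {k : ℕ} (φ : Fm (k + 1)) (x : Fin k → A) (r : ℕ) :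
    BddAbove (Set.range fun y : {y : A // ‖y‖ ≤ r} => φ.val A (Fin.snoc x y.1)) ∧
    BddBelow (Set.range fun y : {y : A // ‖y‖ ≤ r} => φ.val A (Fin.snoc x y.1)) := by
  obtain ⟨R, hR⟩ := exists_bound x
  obtain ⟨C, hC⟩ := (fm_uc (A := A) φ (max R r)).1
  constructor
  · refine ⟨C, ?_⟩
    rintro _ ⟨y, rfl⟩
    exact (abs_le.mp (hC _ (snoc_mem hR y))).2
  · refine ⟨-C, ?_⟩
    rintro _ ⟨y, rfl⟩
    exact (abs_le.mp (hC _ (snoc_mem hR y))).1

/-- The quantifier depth of a formula. -/
def Fm.depth : {k : ℕ} → Fm k → ℕ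
  | _, norm _ => 0
  | _, conn _ φ => Finset.univ.sup fun i => (φ i).depth
  | _, sup _ φ => φ.depth + 1
  | _, inf _ φ => φ.depth + 1

/-- Values of formulas at elements of the group algebra in back-and-forth positions agree. -/
theorem main (hA : IsUniversalCStar G A v) (hB : IsUniversalCStar H B v') {k : ℕ} (φ : Fm k)
    {n : ℕ} (hn : φ.depth ≤ n) {ι : Type} (a : ι → G) (b : ι → H) (hab : Duplicator n a b)
    (c : Fin k → (FreeGroup ι →₀ ℂ)) :
    φ.val A (fun i => ev v a (c i)) = φ.val B (fun i => ev v' b (c i)) := by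
  induction φ generalizing n ι with
  | norm t =>
    obtain ⟨d, h1, h2⟩ := tm_ev (v := v) (v' := v') t a b c
    simp only [Fm.val]
    rw [h1, h2]
    exact norm_ev hA hB hab.base d
  | conn F φ ih =>
    simp only [Fm.val]
    congr 1
    funext i
    refine ih i ?_ a b hab c
    exact (Finset.le_sup (f := fun i => (φ i).depth) (Finset.mem_univ i)).trans hn
  | sup r φ ih =>
    obtain ⟨n, rfl⟩ : ∃ m, n = m + 1 := ⟨n - 1, by
      simp only [Fm.depth] at hn
      omega⟩
    have hn' : φ.depth ≤ n := by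
      simp only [Fm.depth] at hn
      omega
    simp only [Fm.val]
    refine sup_eq (fm_bdd φ _ r).1 (fm_bdd φ _ r).1 (fun y ε hε => ?_) (fun y ε hε => ?_)
    · exact step hA hB φ (fun a b hab c => ih hn' a b hab c) hab c r y hε
    · exact step hB hA φ (fun b a hab c => (ih hn' a b hab.symm c).symm) hab.symm c r y hε
  | inf r φ ih =>
    obtain ⟨n, rfl⟩ : ∃ m, n = m + 1 := ⟨n - 1, by
      simp only [Fm.depth] at hn
      omega⟩
    have hn' : φ.depth ≤ n := by
      simp only [Fm.depth] at hn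
      omega
    simp only [Fm.val]
    refine inf_eq (fm_bdd φ _ r).2 (fm_bdd φ _ r).2 (fun y ε hε => ?_) (fun y ε hε => ?_)
    · exact step hA hB φ (fun a b hab c => ih hn' a b hab c) hab c r y hε
    · exact step hB hA φ (fun b a hab c => (ih hn' a b hab.symm c).symm) hab.symm c r y hε

end Main

/-- If `G ≡ω H` then `C*(G) ≡ C*(H)`. -/
theorem elemEquiv {G H : Type u} [Group G] [Group H] (h : BFEquiv G H) (A B : Type u)
    [CStarAlgebra A] [CStarAlgebra B] (v : G →* unitary A) (v' : H →* unitary B)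
    (hA : IsUniversalCStar G A v) (hB : IsUniversalCStar H B v') : ElemEquiv A B := by
  intro φ
  have h1 := main hA hB φ le_rfl (Empty.elim : Empty → G) (Empty.elim : Empty → H) (h φ.depth)
    Fin.elim0
  have e1 : (fun i => ev v (Empty.elim : Empty → G)
      ((Fin.elim0 : Fin 0 → (FreeGroup Empty →₀ ℂ)) i)) = Fin.elim0 := Subsingleton.elim _ _
  have e2 : (fun i => ev v' (Empty.elim : Empty → H)
      ((Fin.elim0 : Fin 0 → (FreeGroup Empty →₀ ℂ)) i)) = Fin.elim0 := Subsingleton.elim _ _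
  rwa [e1, e2] at h1

/-- `A` is a universal group C*-algebra of `G`. -/
def IsGroupCStar (G : Type u) [Group G] (A : Type u) [CStarAlgebra A] : Prop :=
  ∃ v : G →* A, IsUniversal G A v

/-- Every group has a universal group C*-algebra. -/
def CStarExist : Prop :=
  ∀ (G : Type u) [Group G], ∃ (A : Type u) (_ : CStarAlgebra A), IsGroupCStar G A

/-- Every group `G` has a universal group C*-algebra, and if `G ≡ω H` then `C*(G) ≡ C*(H)`. -/
theorem result : CStarExist.{u} ∧ ∀ (G H : Type u) [Group G] [Group H], BFEquiv G H →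
    ∀ (A B : Type u) [CStarAlgebra A] [CStarAlgebra B],
      IsGroupCStar G A → IsGroupCStar H B → ElemEquiv A B := by
  refine ⟨fun G _ => ?_, ?_⟩
  · obtain ⟨A, i, v, h1, h2⟩ := exists_cstar G
    exact ⟨A, i, (Submonoid.subtype (unitary A)).comp v, fun g => (v g).2,
      fun f => (h1 f).trans (uNorm_eq f).symm, h2⟩
  · rintro G H _ _ h A B _ _ ⟨v, hA⟩ ⟨v', hB⟩
    exact elemEquiv h A B _ _ hA.aux hB.aux

end Pool.Agent.Results.MP_a32272_lc.UniversalCStar
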